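import Mathlib
import Pool.Agent.Helper941.Hyp.Fin39

/-!
There is a hyperarithmetic class `K` of computable structures whose isomorphism relation is
not `Δ¹₁` and is not complete, under hyperarithmetic reducibility, among the isomorphism
relations on hyperarithmetic classes of computable structures.
-/

namespace Pool.Agent.Results.MP_39df03_lc.Intermediate

open Pool.Agent.Helper941.Hyp

theorem result : ∃ ar : ℕ → ℕ, Computable ar ∧ ∃ K : Set (Struct ar),
    HypClass K ∧ ¬ Delta11 (IsoRel K) ∧ ¬ IsComplete K :=
  main39

end Pool.Agent.Results.MP_39df03_lc.Intermediate
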